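import Pool.Agent.Helper53.SL.St2

/-!
MODULE LTP of project SM (MP_9062f4_nt, owner helper53).
-/

set_option autoImplicit false

open Polynomial Filter Topology MeasureTheory Set
open Pool.Agent.Helper96.Salem
open Pool.Agent.Helper53.SL

noncomputable section

namespace Pool.Agent.Helper22.SLM

private theorem lm_layerp {N : ℕ} (hN : 1 ≤ N) {m : ℕ} (hm : 1 ≤ m) {x : ℝ} (hx : 0 ≤ x) :
    ENNReal.ofReal (lm x ^ m) ≤
      (N : ENNReal) ^ m * ∑' j : ℕ, ((j + 1 : ℕ) : ENNReal) ^ m *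
        (if x ≤ Real.exp (-(j : ℝ)) ^ N then 1 else 0) := by
  by_cases hl : -Real.log x ≤ 0
  · have h0 : lm x = 0 := by rw [lm, max_eq_right hl]
    rw [h0, zero_pow (by omega)]
    simp
  · push Not at hl
    have hx0 : 0 < x := by
      rcases hx.lt_or_eq with h | h
      · exact h
      · rw [← h, Real.log_zero] at hl; linarith
    have hN' : (0 : ℝ) < N := by exact_mod_cast hN
    set y : ℝ := -Real.log x / N with hy
    have hy0 : 0 ≤ y := by positivity
    have h1 : x ≤ Real.exp (-((⌊y⌋₊ : ℕ) : ℝ)) ^ N := by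
      have h2 : ((⌊y⌋₊ : ℕ) : ℝ) ≤ y := Nat.floor_le hy0
      rw [← Real.exp_nat_mul, ← Real.log_le_iff_le_exp hx0]
      have h3 : ((⌊y⌋₊ : ℕ) : ℝ) * N ≤ -Real.log x := by
        have h2' := h2
        rw [hy, le_div_iff₀ hN'] at h2'
        exact h2'
      linarith
    have h4 : ((⌊y⌋₊ + 1 : ℕ) : ENNReal) ^ m ≤
        ∑' j : ℕ, ((j + 1 : ℕ) : ENNReal) ^ m *
          (if x ≤ Real.exp (-(j : ℝ)) ^ N then (1 : ENNReal) else 0) := by
      refine le_trans ?_ (ENNReal.le_tsum (⌊y⌋₊ : ℕ))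
      rw [if_pos h1, mul_one]
    refine le_trans ?_ (mul_le_mul_right h4 _)
    have h0 : lm x = -Real.log x := by rw [lm, max_eq_left hl.le]
    rw [h0]
    have h5 : -Real.log x ≤ N * ((⌊y⌋₊ + 1 : ℕ) : ℝ) := by
      have h6 : y ≤ ((⌊y⌋₊ + 1 : ℕ) : ℝ) := by
        push_cast
        exact (Nat.lt_floor_add_one y).le
      have h7 : -Real.log x = N * y := by rw [hy]; field_simp
      rw [h7]
      exact mul_le_mul_of_nonneg_left h6 hN'.le
    have h8 : (-Real.log x) ^ m ≤ (N * ((⌊y⌋₊ + 1 : ℕ) : ℝ)) ^ m :=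
      pow_le_pow_left₀ hl.le h5 m
    refine (ENNReal.ofReal_le_ofReal h8).trans (le_of_eq ?_)
    rw [mul_pow, ENNReal.ofReal_mul (by positivity), ENNReal.ofReal_pow hN'.le,
      ENNReal.ofReal_pow (Nat.cast_nonneg _), ENNReal.ofReal_natCast, ENNReal.ofReal_natCast]

private theorem layer_intp {f : ℝ → ℂ} (hf : Measurable f)
    (S : Set ℝ) {N : ℕ} (hN : 1 ≤ N) {m : ℕ} (hm : 1 ≤ m) :
    ∫⁻ t in S, ENNReal.ofReal (lm ‖f t‖ ^ m) ≤
      (N : ENNReal) ^ m * ∑' j : ℕ, ((j + 1 : ℕ) : ENNReal) ^ m *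
        volume ({t | ‖f t‖ ≤ Real.exp (-(j : ℝ)) ^ N} ∩ S) := by
  have hms : ∀ j : ℕ, MeasurableSet {t | ‖f t‖ ≤ Real.exp (-(j : ℝ)) ^ N} := fun j =>
    measurableSet_le hf.norm measurable_const
  have h1 : ∀ t, ENNReal.ofReal (lm ‖f t‖ ^ m) ≤ (N : ENNReal) ^ m * ∑' j : ℕ,
      ((j + 1 : ℕ) : ENNReal) ^ m *
        {t | ‖f t‖ ≤ Real.exp (-(j : ℝ)) ^ N}.indicator (fun _ => (1 : ENNReal)) t := by
    intro t
    refine (lm_layerp hN hm (norm_nonneg (f t))).trans (le_of_eq ?_)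
    congr 1
  have hmi : ∀ j : ℕ, Measurable
      ({t | ‖f t‖ ≤ Real.exp (-(j : ℝ)) ^ N}.indicator (fun _ : ℝ => (1 : ENNReal))) :=
    fun j => measurable_const.indicator (hms j)
  have hmi2 : ∀ j : ℕ, Measurable (fun t => ((j + 1 : ℕ) : ENNReal) ^ m *
      {t | ‖f t‖ ≤ Real.exp (-(j : ℝ)) ^ N}.indicator (fun _ => (1 : ENNReal)) t) :=
    fun j => (hmi j).const_mul _
  refine (lintegral_mono h1).trans (le_of_eq ?_)
  rw [lintegral_const_mul _ (Measurable.ennreal_tsum hmi2),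
    lintegral_tsum fun j => (hmi2 j).aemeasurable]
  congr 1
  refine tsum_congr fun j => ?_
  rw [lintegral_const_mul _ (hmi j), lintegral_indicator (hms j), lintegral_const, one_mul,
    Measure.restrict_apply MeasurableSet.univ, univ_inter, Measure.restrict_apply (hms j)]

private theorem summ (m : ℕ) (D : ℝ) :
    Summable fun j : ℕ => ((j : ℝ) + 1) ^ m * (D * Real.exp (-(j : ℝ))) := by
  have h1 := Real.summable_pow_mul_exp_neg_nat_mul m one_pos
  have h2 := (summable_nat_add_iff 1).2 h1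
  have h3 := h2.mul_left (D * Real.exp 1)
  refine h3.congr fun j => ?_
  push_cast
  have h4 : Real.exp (-1 * ((j : ℝ) + 1)) = Real.exp (-(j : ℝ)) * Real.exp (-1) := by
    rw [← Real.exp_add]
    congr 1
    ring
  have h5 : Real.exp 1 * Real.exp (-1) = 1 := by
    rw [← Real.exp_add, add_neg_cancel, Real.exp_zero]
  rw [h4]
  calc D * Real.exp 1 * (((j : ℝ) + 1) ^ m * (Real.exp (-(j : ℝ)) * Real.exp (-1)))
      = ((j : ℝ) + 1) ^ m * (D * Real.exp (-(j : ℝ))) * (Real.exp 1 * Real.exp (-1)) := by ring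
    _ = ((j : ℝ) + 1) ^ m * (D * Real.exp (-(j : ℝ))) := by rw [h5, mul_one]

theorem hLtp : StLtp := by
  intro k m
  rcases Nat.eq_zero_or_pos m with hm0 | hm
  · subst hm0
    refine ⟨2 * Real.pi, by positivity, ?_⟩
    intro G _ j _
    simp only [pow_zero, ENNReal.ofReal_one]
    rw [lintegral_const, one_mul, Measure.restrict_apply MeasurableSet.univ, univ_inter,
      Real.volume_Ico, sub_zero]
  obtain ⟨C, hC, N, hN, h⟩ := SV k
  have hpi := two_pi_pos
  have hD : 0 ≤ C * (2 * Real.pi) := by positivity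
  have hnn : ∀ j : ℕ, 0 ≤ ((j : ℝ) + 1) ^ m * (C * (2 * Real.pi) * Real.exp (-(j : ℝ))) :=
    fun j => by positivity
  refine ⟨(N : ℝ) ^ m * ∑' j : ℕ, ((j : ℝ) + 1) ^ m * (C * (2 * Real.pi) * Real.exp (-(j : ℝ))),
    mul_nonneg (by positivity) (tsum_nonneg hnn), ?_⟩
  intro G hk j hj
  refine (layer_intp (eval_circle_measurable G) (Ico 0 (2 * Real.pi)) hN hm).trans ?_
  rw [ENNReal.ofReal_mul (by positivity), ENNReal.ofReal_pow (Nat.cast_nonneg N),
    ENNReal.ofReal_natCast,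
    ENNReal.ofReal_tsum_of_nonneg hnn (summ m _)]
  refine mul_le_mul_right (ENNReal.tsum_le_tsum fun l => ?_) _
  have h2 := global_SV h hk hj (δ := Real.exp (-(l : ℝ))) (Real.exp_pos _) (by
    rw [Real.exp_le_one_iff]
    have : (0 : ℝ) ≤ l := Nat.cast_nonneg l
    linarith)
  have h3 : ENNReal.ofReal (((l : ℝ) + 1) ^ m) = ((l + 1 : ℕ) : ENNReal) ^ m := by
    rw [ENNReal.ofReal_pow (by positivity), show ((l : ℝ) + 1) = ((l + 1 : ℕ) : ℝ) by
      push_cast; ring, ENNReal.ofReal_natCast]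
  rw [ENNReal.ofReal_mul (by positivity), h3]
  refine mul_le_mul_right ((measure_mono ?_).trans h2) _
  rintro t ⟨ht1, ht2⟩
  exact ⟨Ico_subset_Icc_self ht2, ht1⟩

end Pool.Agent.Helper22.SLM
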